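import Pool.Agent.H41R2.BT.Defs

open Finset

namespace Pool.Agent.H41R2.BT

theorem CI (h1 : S_VI) (h2 : S_SP) (h3 : S_LB) (h4 : S_LE) : S_CI := by
  intro V ι _ _ _ e S T U t ht hS hT hT0 hU hdeg hgS hgU
  have hD : (0 : ℝ) < dg e T := by exact_mod_cast hT0
  have hx : ∀ x ∈ T, (9 * (gn e S x : ℝ) + (hh e S U x : ℝ) + (pl e S T x : ℝ)) * (dg e T : ℝ) ≤
      18 * t * (pv e T x : ℝ) := by
    intro x hxT
    obtain ⟨_, _, _, _, _, a1, a2, _, _, _⟩ := h4 V ι e S T U x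
    obtain ⟨_, _, _, _, _, _, _, b1, b2, b3⟩ := h4 V ι e S T U x
    have hd := hdeg x hxT
    have c1 : (gn e S x : ℝ) + hh e S U x ≤ deg e x := by exact_mod_cast a2
    have c2 : (gn e S x : ℝ) + pl e S T x ≤ deg e x := by exact_mod_cast b2
    have c3 : (gn e S x : ℝ) * dg e T ≤ pv e T x * (dg e S + gn e S x) := by
      exact_mod_cast hgS x hxT
    have c4 : (gn e U x : ℝ) * dg e T ≤ pv e T x * (dg e U + gn e U x) := by
      exact_mod_cast hgU x hxT
    exact h1 t (dg e T) (dg e S) (dg e U) (gn e S x) (hh e S U x) (gn e U x) (pl e S T x)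
      (pv e T x) ht hD hT (Nat.cast_nonneg _) hS (Nat.cast_nonneg _) hU (Nat.cast_nonneg _)
      (Nat.cast_nonneg _) (by exact_mod_cast a1) (Nat.cast_nonneg _) (by exact_mod_cast b1)
      (by exact_mod_cast b3) (c1.trans hd) (c2.trans hd) c3 c4
  have hsum := Finset.sum_le_sum hx
  rw [← Finset.sum_mul, ← Finset.mul_sum, Finset.sum_add_distrib, Finset.sum_add_distrib,
    ← Finset.mul_sum] at hsum
  have hSP : ∑ x ∈ T, (pv e T x : ℝ) + (dbl e T : ℝ) = dg e T := by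
    exact_mod_cast h2 V ι e T
  have hLB : (both e S T : ℝ) ≤ ∑ x ∈ T, (pl e S T x : ℝ) + (dbl e T : ℝ) := by
    exact_mod_cast h3 V ι e S T
  have hdbl : (0 : ℝ) ≤ dbl e T := Nat.cast_nonneg _
  set G := ∑ x ∈ T, (gn e S x : ℝ)
  set Hs := ∑ x ∈ T, (hh e S U x : ℝ)
  set L := ∑ x ∈ T, (pl e S T x : ℝ)
  set Pv := ∑ x ∈ T, (pv e T x : ℝ)
  set D : ℝ := (dg e T : ℝ)
  set B : ℝ := (both e S T : ℝ)
  set db : ℝ := (dbl e T : ℝ)
  have h5 : (9 * G + Hs + B) * D ≤ 18 * t * D := by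
    have h6 : (9 * G + Hs + B) * D ≤ (9 * G + Hs + (L + db)) * D :=
      mul_le_mul_of_nonneg_right (by linarith) hD.le
    have h7 : 18 * t * Pv = 18 * t * D - 18 * t * db := by
      rw [← hSP]
      ring
    have h8 : db * D ≤ db * (18 * t) := mul_le_mul_of_nonneg_left (by linarith) hdbl
    nlinarith
  exact le_of_mul_le_mul_right h5 hD

end Pool.Agent.H41R2.BT
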