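import Pool.Agent.H41R2.BT.Defs

open Finset

namespace Pool.Agent.H41R2.BT

theorem CORE (h1 : S_CI) (h2 : S_L1) (h3 : S_SG) (h4 : S_SH) (h5 : S_LE) : S_CORE := by
  intro V ι _ _ _ r e c t hr ht hcard hm hdeg hpos hex
  have hfin : Nonempty (Fin r) := ⟨⟨0, by omega⟩⟩
  obtain ⟨k1, hk1⟩ := Finite.exists_min (fun k : Fin r => dg e (cls c k))
  by_contra hcon
  push Not at hcon
  obtain ⟨k, hk⟩ := hcon
  have hd1 : (dg e (cls c k1) : ℝ) < t := lt_of_le_of_lt (by exact_mod_cast hk1 k) hk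
  -- a vertex
  obtain ⟨x0⟩ : Nonempty V := by
    have h := hpos k1
    unfold dg at h
    rw [Finset.card_pos] at h
    obtain ⟨i, hi⟩ := h
    obtain ⟨x, -⟩ := (Finset.mem_filter.1 hi).2
    exact ⟨x⟩
  -- the class j0
  have hne : (univ.erase k1 : Finset (Fin r)).Nonempty := by
    rw [← Finset.card_pos, Finset.card_erase_of_mem (mem_univ _), Finset.card_univ, Fintype.card_fin]
    omega
  obtain ⟨j0, hj0, hmin⟩ := Finset.exists_min_image (univ.erase k1)
    (fun j => both e (cls c k1) (cls c j)) hne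
  have hj0k : j0 ≠ k1 := (Finset.mem_erase.1 hj0).1
  have hr' : (2 : ℝ) ≤ r := by exact_mod_cast hr
  have hm3 : (Fintype.card ι : ℝ) ≤ 3 * t := by
    have : 9 * (r : ℝ) * (Fintype.card ι : ℝ) ≤ 9 * r * (3 * t) := by rw [hm]; nlinarith
    have h9 : (0 : ℝ) < 9 * r := by linarith
    exact le_of_mul_le_mul_left this h9
  have hle : ∀ S : Finset V, (dg e S : ℝ) ≤ 3 * t := fun S => by
    have h := (h5 V ι e S S S x0).2.1
    have h' : (dg e S : ℝ) ≤ Fintype.card ι := by exact_mod_cast h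
    linarith
  set S := cls c k1 with hS
  set U := cls c j0 with hU
  -- inequality for one class
  have hci : ∀ i ∈ (univ.erase k1 : Finset (Fin r)),
      9 * (∑ x ∈ cls c i, (gn e S x : ℝ)) + (∑ x ∈ cls c i, (hh e S U x : ℝ)) +
        (both e S U : ℝ) ≤ 18 * t := by
    intro i hi
    have hik : i ≠ k1 := (Finset.mem_erase.1 hi).1
    have h := h1 V ι e S (cls c i) U t ht hd1.le (hle _) (hpos i) (hle _) (fun x _ => hdeg x)
      (hex i k1 hik) (by
        intro x hx
        by_cases hij : i = j0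
        · subst hij
          rw [(h5 V ι e U U U x).2.2.1 hx]
          simp
        · exact hex i j0 hij x hx)
    have hb : (both e S U : ℝ) ≤ both e S (cls c i) := by exact_mod_cast hmin i hi
    linarith
  have hsum := Finset.sum_le_sum hci
  rw [Finset.sum_const, Finset.card_erase_of_mem (mem_univ _), Finset.card_univ, Fintype.card_fin,
    Finset.sum_add_distrib, Finset.sum_add_distrib, ← Finset.mul_sum, Finset.sum_const,
    Finset.card_erase_of_mem (mem_univ _), Finset.card_univ, Fintype.card_fin] at hsum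
  have hfib : ∀ f : V → ℝ, ∑ i ∈ univ.erase k1, ∑ x ∈ cls c i, f x + ∑ x ∈ S, f x = ∑ x, f x := by
    intro f
    rw [Finset.sum_erase_add _ _ (mem_univ k1)]
    exact Finset.sum_fiberwise univ c f
  have hG := hfib (fun x => (gn e S x : ℝ))
  have hH := hfib (fun x => (hh e S U x : ℝ))
  have hG0 : ∑ x ∈ S, (gn e S x : ℝ) = 0 := by
    apply Finset.sum_eq_zero
    intro x hx
    rw [(h5 V ι e S S S x).2.2.1 hx]
    simp
  have hSG : ∑ x, (gn e S x : ℝ) + r * dg e S = r * Fintype.card ι := by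
    exact_mod_cast h3 V ι r e S hcard
  have hSH : ∑ x, (hh e S U x : ℝ) = r * miss e S U := by
    exact_mod_cast h4 V ι r e S U hcard
  have hL1 : ∑ x ∈ S, (hh e S U x : ℝ) ≤ 4 * t :=
    h2 V ι e S U t ht (hpos k1) (hle _) (fun x _ => hdeg x) (hex k1 j0 hj0k.symm)
  have hbm : (both e S U : ℝ) + miss e S U = dg e S := by
    exact_mod_cast (h5 V ι e S S U x0).1
  have hmiss : (0 : ℝ) ≤ miss e S U := Nat.cast_nonneg _
  rw [hG0, add_zero] at hG
  rw [hG] at hsum
  simp only [nsmul_eq_mul] at hsum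
  have hcast : ((r - 1 : ℕ) : ℝ) = r - 1 := by rw [Nat.cast_sub (by omega)]; simp
  rw [hcast] at hsum
  have e1 : (r : ℝ) * both e S U = r * dg e S - r * miss e S U := by rw [← hbm]; ring
  have e2 : 0 < (8 * (r : ℝ) + 1) * (t - dg e S) := mul_pos (by linarith) (by linarith)
  nlinarith

end Pool.Agent.H41R2.BT
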