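import Mathlib

/-!
# Judicious partitions of uniform hypergraphs: definitions and statements

A (multi)hypergraph is given by `e : ι → Finset V`.
-/

open Finset

namespace Pool.Agent.H41R2.BT

section
variable {V ι : Type} [Fintype V] [DecidableEq V] [Fintype ι]

/-- number of edges met by `S` -/
def dg (e : ι → Finset V) (S : Finset V) : ℕ := (univ.filter fun i => (e i ∩ S).Nonempty).card

/-- number of edges containing `x` -/
def deg (e : ι → Finset V) (x : V) : ℕ := (univ.filter fun i => x ∈ e i).card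

/-- number of edges containing `x` and missing `S` -/
def gn (e : ι → Finset V) (S : Finset V) (x : V) : ℕ :=
  (univ.filter fun i => x ∈ e i ∧ ¬ (e i ∩ S).Nonempty).card

/-- number of edges meeting `S` exactly in `x` -/
def pv (e : ι → Finset V) (S : Finset V) (x : V) : ℕ := (univ.filter fun i => e i ∩ S = {x}).card

/-- number of edges meeting `S` in at least two vertices -/
def dbl (e : ι → Finset V) (S : Finset V) : ℕ := (univ.filter fun i => 2 ≤ (e i ∩ S).card).card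

/-- number of edges containing `x`, meeting `S` and missing `U` -/
def hh (e : ι → Finset V) (S U : Finset V) (x : V) : ℕ :=
  (univ.filter fun i => x ∈ e i ∧ (e i ∩ S).Nonempty ∧ ¬ (e i ∩ U).Nonempty).card

/-- number of edges meeting `T` exactly in `x` and meeting `S` -/
def pl (e : ι → Finset V) (S T : Finset V) (x : V) : ℕ :=
  (univ.filter fun i => e i ∩ T = {x} ∧ (e i ∩ S).Nonempty).card

/-- number of edges meeting both `S` and `T` -/
def both (e : ι → Finset V) (S T : Finset V) : ℕ :=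
  (univ.filter fun i => (e i ∩ S).Nonempty ∧ (e i ∩ T).Nonempty).card

/-- number of edges meeting `S` and missing `U` -/
def miss (e : ι → Finset V) (S U : Finset V) : ℕ :=
  (univ.filter fun i => (e i ∩ S).Nonempty ∧ ¬ (e i ∩ U).Nonempty).card

/-- the class of colour `k` -/
def cls {r : ℕ} (c : V → Fin r) (k : Fin r) : Finset V := univ.filter fun v => c v = k

end

/-- VI: the inequality for one vertex. -/
def S_VI : Prop := ∀ t D d b g h h' l p : ℝ, 0 < t → 0 < D → D ≤ 3 * t → 0 ≤ d → d ≤ t →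
  0 ≤ b → b ≤ 3 * t → 0 ≤ g → 0 ≤ h → h ≤ h' → 0 ≤ l → l ≤ p → p ≤ D → g + h ≤ t → g + l ≤ t →
  g * D ≤ p * (d + g) → h' * D ≤ p * (b + h') → (9 * g + h + l) * D ≤ 18 * t * p

/-- EXA: adding a vertex. -/
def S_EXA : Prop := ∀ (V ι : Type) [Fintype V] [DecidableEq V] [Fintype ι] (e : ι → Finset V)
  (T : Finset V) (x : V), dg e (insert x T) = dg e T + gn e T x

/-- EXB: removing a vertex. -/
def S_EXB : Prop := ∀ (V ι : Type) [Fintype V] [DecidableEq V] [Fintype ι] (e : ι → Finset V)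
  (S : Finset V) (x : V), x ∈ S → dg e (S.erase x) + pv e S x = dg e S

/-- POS: a colouring all of whose classes meet an edge. -/
def S_POS : Prop := ∀ (V ι : Type) [Fintype V] [DecidableEq V] [Fintype ι] [Nonempty ι] (r : ℕ)
  (e : ι → Finset V), 1 ≤ r → (∀ i, (e i).card = r) → ∃ c : V → Fin r, ∀ k, 0 < dg e (cls c k)

/-- MX: a colouring maximising the product of the numbers of edges met by the classes. -/
def S_MX : Prop := ∀ (V ι : Type) [Fintype V] [DecidableEq V] [Fintype ι] [Nonempty ι] (r : ℕ)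
  (e : ι → Finset V), 1 ≤ r → (∀ i, (e i).card = r) → ∃ c : V → Fin r,
    (∀ k, 0 < dg e (cls c k)) ∧
    ∀ i j, i ≠ j → ∀ x ∈ cls c i, gn e (cls c j) x * dg e (cls c i) ≤
      pv e (cls c i) x * (dg e (cls c j) + gn e (cls c j) x)

/-- SP -/
def S_SP : Prop := ∀ (V ι : Type) [Fintype V] [DecidableEq V] [Fintype ι] (e : ι → Finset V)
  (S : Finset V), ∑ x ∈ S, pv e S x + dbl e S = dg e S

/-- SG -/
def S_SG : Prop := ∀ (V ι : Type) [Fintype V] [DecidableEq V] [Fintype ι] (r : ℕ)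
  (e : ι → Finset V) (S : Finset V), (∀ i, (e i).card = r) →
  ∑ x, gn e S x + r * dg e S = r * Fintype.card ι

/-- SH -/
def S_SH : Prop := ∀ (V ι : Type) [Fintype V] [DecidableEq V] [Fintype ι] (r : ℕ)
  (e : ι → Finset V) (S U : Finset V), (∀ i, (e i).card = r) → ∑ x, hh e S U x = r * miss e S U

/-- LB -/
def S_LB : Prop := ∀ (V ι : Type) [Fintype V] [DecidableEq V] [Fintype ι] (e : ι → Finset V)
  (S T : Finset V), both e S T ≤ ∑ x ∈ T, pl e S T x + dbl e T

/-- LE: the easy relations. -/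
def S_LE : Prop := ∀ (V ι : Type) [Fintype V] [DecidableEq V] [Fintype ι] (e : ι → Finset V)
  (S T U : Finset V) (x : V), both e S U + miss e S U = dg e S ∧ dg e S ≤ Fintype.card ι ∧
  (x ∈ S → gn e S x = 0) ∧ (x ∈ U → hh e S U x = 0) ∧ (x ∈ S → hh e S U x = gn e U x) ∧
  hh e S U x ≤ gn e U x ∧ gn e S x + hh e S U x ≤ deg e x ∧ pl e S T x ≤ pv e T x ∧
  gn e S x + pl e S T x ≤ deg e x ∧ pv e T x ≤ dg e T

/-- CI: the inequality for one class. -/
def S_CI : Prop := ∀ (V ι : Type) [Fintype V] [DecidableEq V] [Fintype ι] (e : ι → Finset V)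
  (S T U : Finset V) (t : ℝ), 0 < t → (dg e S : ℝ) ≤ t → (dg e T : ℝ) ≤ 3 * t → 0 < dg e T →
  (dg e U : ℝ) ≤ 3 * t → (∀ x ∈ T, (deg e x : ℝ) ≤ t) →
  (∀ x ∈ T, gn e S x * dg e T ≤ pv e T x * (dg e S + gn e S x)) →
  (∀ x ∈ T, gn e U x * dg e T ≤ pv e T x * (dg e U + gn e U x)) →
  9 * (∑ x ∈ T, (gn e S x : ℝ)) + (∑ x ∈ T, (hh e S U x : ℝ)) + (both e S T : ℝ) ≤ 18 * t

/-- L1: the bound for the vertices of the smallest class. -/
def S_L1 : Prop := ∀ (V ι : Type) [Fintype V] [DecidableEq V] [Fintype ι] (e : ι → Finset V)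
  (S U : Finset V) (t : ℝ), 0 < t → 0 < dg e S → (dg e U : ℝ) ≤ 3 * t →
  (∀ x ∈ S, (deg e x : ℝ) ≤ t) →
  (∀ x ∈ S, gn e U x * dg e S ≤ pv e S x * (dg e U + gn e U x)) →
  ∑ x ∈ S, (hh e S U x : ℝ) ≤ 4 * t

/-- CORE: the case without vertices of large degree. -/
def S_CORE : Prop := ∀ (V ι : Type) [Fintype V] [DecidableEq V] [Fintype ι] (r : ℕ)
  (e : ι → Finset V) (c : V → Fin r) (t : ℝ), 2 ≤ r → 0 < t → (∀ i, (e i).card = r) →
  9 * r * (Fintype.card ι : ℝ) = (26 * r - 13) * t → (∀ x, (deg e x : ℝ) ≤ t) →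
  (∀ k, 0 < dg e (cls c k)) →
  (∀ i j, i ≠ j → ∀ x ∈ cls c i, gn e (cls c j) x * dg e (cls c i) ≤
      pv e (cls c i) x * (dg e (cls c j) + gn e (cls c j) x)) →
  ∀ k, t ≤ dg e (cls c k)

/-- HV: a vertex of large degree forms a class. -/
def S_HV : Prop := ∀ (V ι : Type) [Fintype V] [DecidableEq V] [Fintype ι] (r : ℕ)
  (e : ι → Finset V) (x : V), 1 ≤ r → (∀ i, (e i).card = r + 1) →
  9 * (r + 1) * Fintype.card ι ≤ 13 * (2 * r + 1) * deg e x →
  (∀ e' : ι → Finset V, (∀ i, (e' i).card = r) →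
    ∃ c : V → Fin r, ∀ k, 9 * r * Fintype.card ι ≤ 13 * (2 * r - 1) * dg e' (cls c k)) →
  ∃ c : V → Fin (r + 1), ∀ k, 9 * (r + 1) * Fintype.card ι ≤ 13 * (2 * r + 1) * dg e (cls c k)

/-- TH: the theorem. -/
def S_TH : Prop := ∀ (r : ℕ), 1 ≤ r → ∀ (V ι : Type) [Fintype V] [DecidableEq V] [Fintype ι]
  (e : ι → Finset V), (∀ i, (e i).card = r) →
  ∃ c : V → Fin r, ∀ k, 9 * r * Fintype.card ι ≤ 13 * (2 * r - 1) * dg e (cls c k)

end Pool.Agent.H41R2.BT
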