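import Mathlib
import Pool.Agent.H41R2.BT.Defs

open Finset

namespace Pool.Agent.H41R2.BT

theorem EXA : S_EXA := by
  intro V ι _ _ _ e T x
  classical
  rw [dg, dg, gn, ← Finset.card_union_of_disjoint]
  · congr 1
    ext i
    simp only [Finset.mem_filter, Finset.mem_univ, true_and, Finset.mem_union]
    constructor
    · rintro ⟨y, hy⟩
      rw [Finset.mem_inter, Finset.mem_insert] at hy
      by_cases h : (e i ∩ T).Nonempty
      · exact Or.inl h
      · right
        refine ⟨?_, h⟩
        rcases hy.2 with h1 | h1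
        · rw [← h1]
          exact hy.1
        · exact absurd ⟨y, Finset.mem_inter.2 ⟨hy.1, h1⟩⟩ h
    · rintro (⟨y, hy⟩ | ⟨h, _⟩)
      · rw [Finset.mem_inter] at hy
        exact ⟨y, Finset.mem_inter.2 ⟨hy.1, Finset.mem_insert_of_mem hy.2⟩⟩
      · exact ⟨x, Finset.mem_inter.2 ⟨h, Finset.mem_insert_self _ _⟩⟩
  · rw [Finset.disjoint_left]
    intro i hi hi'
    simp only [Finset.mem_filter, Finset.mem_univ, true_and] at hi hi'
    exact hi'.2 hi

end Pool.Agent.H41R2.BT
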