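import Pool.Agent.H41R2.BT.Defs

/-!
# EXB: removing a vertex
-/

open Finset

namespace Pool.Agent.H41R2.BT

theorem EXB : S_EXB := by
  intro V ι _ _ _ e S x hx
  classical
  unfold dg pv
  rw [← card_union_of_disjoint]
  · congr 1
    ext i
    simp only [mem_union, mem_filter, mem_univ, true_and]
    constructor
    · rintro (⟨y, hy⟩ | h)
      · rw [mem_inter, mem_erase] at hy
        exact ⟨y, mem_inter.2 ⟨hy.1, hy.2.2⟩⟩
      · rw [h]; exact singleton_nonempty x
    · rintro ⟨y, hy⟩
      by_cases hn : (e i ∩ S.erase x).Nonempty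
      · exact Or.inl hn
      · right
        have hall : ∀ z ∈ e i ∩ S, z = x := by
          intro z hz
          by_contra hzx
          rw [mem_inter] at hz
          exact hn ⟨z, mem_inter.2 ⟨hz.1, mem_erase.2 ⟨hzx, hz.2⟩⟩⟩
        have hyx := hall y hy
        subst hyx
        ext z
        constructor
        · intro hz
          rw [mem_singleton]
          exact hall z hz
        · intro hz
          rw [mem_singleton] at hz
          rw [hz]; exact hy
  · rw [Finset.disjoint_filter]
    rintro i - ⟨y, hy⟩ h
    rw [mem_inter, mem_erase] at hy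
    have : y ∈ e i ∩ S := mem_inter.2 ⟨hy.1, hy.2.2⟩
    rw [h, mem_singleton] at this
    exact hy.2.1 this

end Pool.Agent.H41R2.BT
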