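import Mathlib
import Pool.Agent.H41R2.BT.Defs

/-!
# HV: a vertex of large degree forms a class
-/

open Finset

namespace Pool.Agent.H41R2.BT

theorem HV : S_HV := by
  intro V ι _ _ _ r e x hr he hx hyp
  have h1 : ∀ i, ∃ s ⊆ (e i).erase x, s.card = r := fun i => by
    apply Finset.exists_subset_card_eq
    have h2 := Finset.pred_card_le_card_erase (s := e i) (a := x)
    rw [he i] at h2
    omega
  choose e' hsub hcard using h1
  obtain ⟨c', hc'⟩ := hyp e' hcard
  refine ⟨fun v => if v = x then Fin.last r else (c' v).castSucc, fun k => ?_⟩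
  refine Fin.lastCases ?_ (fun k => ?_) k
  · have hcls : cls (fun v => if v = x then Fin.last r else (c' v).castSucc) (Fin.last r) =
        {x} := by
      ext v
      simp only [cls, mem_filter, mem_univ, true_and, mem_singleton]
      by_cases hv : v = x
      · simp [hv]
      · rw [if_neg hv]
        exact ⟨fun h => absurd h (Fin.castSucc_ne_last _), fun h => absurd h hv⟩
    have hd : dg e {x} = deg e x := by
      unfold dg deg
      congr 1
      ext i
      simp only [mem_filter, mem_univ, true_and]
      constructor
      · rintro ⟨v, hv⟩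
        rw [mem_inter, mem_singleton] at hv
        rw [← hv.2]
        exact hv.1
      · intro h
        exact ⟨x, by rw [mem_inter, mem_singleton]; exact ⟨h, rfl⟩⟩
    rw [hcls, hd]
    exact hx
  · have hle : dg e' (cls c' k) ≤
        dg e (cls (fun v => if v = x then Fin.last r else (c' v).castSucc) k.castSucc) := by
      unfold dg
      apply card_le_card
      intro i hi
      simp only [mem_filter, mem_univ, true_and] at hi ⊢
      obtain ⟨v, hv⟩ := hi
      rw [mem_inter] at hv
      have h3 := hsub i hv.1
      rw [mem_erase] at h3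
      refine ⟨v, ?_⟩
      rw [mem_inter]
      refine ⟨h3.2, ?_⟩
      have h4 := hv.2
      simp only [cls, mem_filter, mem_univ, true_and] at h4 ⊢
      rw [if_neg h3.1, h4]
    have h5 := hc' k
    obtain ⟨s, rfl⟩ : ∃ s, r = s + 1 := ⟨r - 1, by omega⟩
    have e1 : 2 * (s + 1) - 1 = 2 * s + 1 := by omega
    rw [e1] at h5
    generalize dg e' (cls c' k) = D' at *
    generalize dg e (cls (fun v => if v = x then Fin.last (s + 1) else (c' v).castSucc)
      k.castSucc) = D at *
    generalize Fintype.card ι = m at *
    refine Nat.le_of_mul_le_mul_left (?_ : (s + 1) * _ ≤ (s + 1) * _) (Nat.succ_pos s)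
    calc (s + 1) * (9 * (s + 1 + 1) * m) = (s + 2) * (9 * (s + 1) * m) := by ring
      _ ≤ (s + 2) * (13 * (2 * s + 1) * D') := Nat.mul_le_mul_left _ h5
      _ ≤ (s + 2) * (13 * (2 * s + 1) * D) :=
          Nat.mul_le_mul_left _ (Nat.mul_le_mul_left _ hle)
      _ = 13 * ((2 * s + 1) * (s + 2)) * D := by ring
      _ ≤ 13 * ((2 * s + 3) * (s + 1)) * D := by
          apply Nat.mul_le_mul_right
          apply Nat.mul_le_mul_left
          nlinarith
      _ = (s + 1) * (13 * (2 * (s + 1) + 1) * D) := by ring

end Pool.Agent.H41R2.BT
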