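import Mathlib
import Pool.Agent.H41R2.BT.Defs

open Finset

namespace Pool.Agent.H41R2.BT

theorem L1 (h1 : S_SP) (h2 : S_LE) : S_L1 := by
  intro V ι _ _ _ e S U t ht hS hU hdeg hmx
  have hS' : (0 : ℝ) < dg e S := by exact_mod_cast hS
  have hx : ∀ x ∈ S, (hh e S U x : ℝ) * dg e S ≤ 4 * t * pv e S x := by
    intro x hx
    obtain ⟨_, _, _, _, h5, _⟩ := h2 V ι e S U U x
    obtain ⟨_, _, _, _, _, _, h7, _⟩ := h2 V ι e U U U x
    have e5 := h5 hx
    have hg : (gn e U x : ℝ) ≤ t := by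
      have h8 : (gn e U x : ℝ) ≤ deg e x := by
        have : gn e U x ≤ deg e x := by omega
        exact_mod_cast this
      exact h8.trans (hdeg x hx)
    have h9 : (gn e U x : ℝ) * dg e S ≤ pv e S x * (dg e U + gn e U x) := by
      exact_mod_cast hmx x hx
    rw [e5]
    have h10 : (0 : ℝ) ≤ pv e S x := Nat.cast_nonneg _
    have h11 : (dg e U : ℝ) + gn e U x ≤ 4 * t := by linarith
    have h12 := mul_le_mul_of_nonneg_left h11 h10
    linarith
  have hsum : (∑ x ∈ S, (hh e S U x : ℝ)) * dg e S ≤ 4 * t * ∑ x ∈ S, (pv e S x : ℝ) := by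
    rw [Finset.sum_mul, Finset.mul_sum]
    exact Finset.sum_le_sum hx
  have hsp : (∑ x ∈ S, (pv e S x : ℝ)) ≤ dg e S := by
    have h3 := h1 V ι e S
    have h4 : ∑ x ∈ S, pv e S x ≤ dg e S := by omega
    exact_mod_cast h4
  have h13 : 4 * t * ∑ x ∈ S, (pv e S x : ℝ) ≤ 4 * t * dg e S :=
    mul_le_mul_of_nonneg_left hsp (by linarith)
  exact le_of_mul_le_mul_right (hsum.trans h13) hS'

end Pool.Agent.H41R2.BT
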