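import Pool.Agent.H41R2.BT.Defs

open Finset

namespace Pool.Agent.H41R2.BT

theorem LB_aux {V ι : Type} [DecidableEq V] [DecidableEq ι] [Fintype ι] (e : ι → Finset V)
    (S T : Finset V) : (univ.filter fun i => (e i ∩ S).Nonempty ∧ (e i ∩ T).Nonempty).card ≤
      ∑ x ∈ T, (univ.filter fun i => e i ∩ T = {x} ∧ (e i ∩ S).Nonempty).card +
        (univ.filter fun i => 2 ≤ (e i ∩ T).card).card := by
  have h : (univ.filter fun i => (e i ∩ S).Nonempty ∧ (e i ∩ T).Nonempty) ⊆
      (T.biUnion fun x => univ.filter fun i => e i ∩ T = {x} ∧ (e i ∩ S).Nonempty) ∪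
        univ.filter fun i => 2 ≤ (e i ∩ T).card := by
    intro i hi
    rw [mem_filter] at hi
    obtain ⟨-, hS, hT⟩ := hi
    rw [mem_union]
    by_cases hc : 2 ≤ (e i ∩ T).card
    · right
      rw [mem_filter]
      exact ⟨mem_univ _, hc⟩
    · left
      have h1 : (e i ∩ T).card = 1 := by
        have := hT.card_pos
        omega
      obtain ⟨x, hx⟩ := card_eq_one.1 h1
      rw [mem_biUnion]
      refine ⟨x, ?_, ?_⟩
      · have h2 : x ∈ e i ∩ T := by rw [hx]; exact mem_singleton_self x
        exact (mem_inter.1 h2).2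
      · rw [mem_filter]
        exact ⟨mem_univ _, hx, hS⟩
  refine (card_le_card h).trans ((card_union_le _ _).trans ?_)
  exact Nat.add_le_add_right card_biUnion_le _

theorem LB : S_LB := by
  intro V ι _ _ _ e S T
  classical
  unfold both pl dbl
  convert LB_aux e S T

end Pool.Agent.H41R2.BT
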