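import Mathlib
import Pool.Agent.H41R2.BT.Defs

open Finset

namespace Pool.Agent.H41R2.BT

theorem LE_mem {V : Type} [DecidableEq V] {A S : Finset V} {x : V} (h1 : x ∈ A) (h2 : x ∈ S) :
    (A ∩ S).Nonempty := ⟨x, mem_inter.2 ⟨h1, h2⟩⟩

theorem LE_sing {V : Type} [DecidableEq V] {A S : Finset V} {x : V} (h : A ∩ S = {x}) :
    x ∈ A ∧ x ∈ S := mem_inter.1 (h ▸ mem_singleton_self x)

theorem LE : S_LE := by
  classical
  intro V ι _ _ _ e S T U x
  refine ⟨?_, ?_, ?_, ?_, ?_, ?_, ?_, ?_, ?_, ?_⟩
  · unfold both miss dg
    rw [← filter_filter, ← filter_filter]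
    exact card_filter_add_card_filter_not _
  · unfold dg
    exact (card_le_univ _)
  · intro hx
    unfold gn
    rw [card_eq_zero, filter_eq_empty_iff]
    rintro i - ⟨h1, h2⟩
    exact h2 (LE_mem h1 hx)
  · intro hx
    unfold hh
    rw [card_eq_zero, filter_eq_empty_iff]
    rintro i - ⟨h1, -, h2⟩
    exact h2 (LE_mem h1 hx)
  · intro hx
    unfold hh gn
    congr 1
    apply filter_congr
    intro i _
    exact ⟨fun h => ⟨h.1, h.2.2⟩, fun h => ⟨h.1, LE_mem h.1 hx, h.2⟩⟩
  · unfold hh gn
    apply card_le_card
    intro i hi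
    simp only [mem_filter, mem_univ, true_and] at hi ⊢
    exact ⟨hi.1, hi.2.2⟩
  · unfold gn hh deg
    rw [← card_union_of_disjoint]
    · apply card_le_card
      intro i hi
      simp only [mem_union, mem_filter, mem_univ, true_and] at hi ⊢
      rcases hi with hi | hi <;> exact hi.1
    · rw [disjoint_left]
      intro i hi hi2
      simp only [mem_filter, mem_univ, true_and] at hi hi2
      exact hi.2 hi2.2.1
  · unfold pl pv
    apply card_le_card
    intro i hi
    simp only [mem_filter, mem_univ, true_and] at hi ⊢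
    exact hi.1
  · unfold gn pl deg
    rw [← card_union_of_disjoint]
    · apply card_le_card
      intro i hi
      simp only [mem_union, mem_filter, mem_univ, true_and] at hi ⊢
      rcases hi with hi | hi
      · exact hi.1
      · exact (LE_sing hi.1).1
    · rw [disjoint_left]
      intro i hi hi2
      simp only [mem_filter, mem_univ, true_and] at hi hi2
      exact hi.2 hi2.2
  · unfold pv dg
    apply card_le_card
    intro i hi
    simp only [mem_filter, mem_univ, true_and] at hi ⊢
    rw [hi]
    exact singleton_nonempty x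

end Pool.Agent.H41R2.BT
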