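import Mathlib
import Pool.Agent.H41R2.BT.Defs

open Finset

namespace Pool.Agent.H41R2.BT

theorem MX (h1 : S_POS) (h2 : S_EXA) (h3 : S_EXB) : S_MX := by
  intro V ι _ _ _ _ r e hr he
  obtain ⟨c0, hc0⟩ := h1 V ι r e hr he
  have hne : Nonempty (V → Fin r) := ⟨c0⟩
  obtain ⟨c, hc⟩ := Finite.exists_max (fun c : V → Fin r => ∏ k, dg e (cls c k))
  have hpos : 0 < ∏ k, dg e (cls c k) :=
    lt_of_lt_of_le (Finset.prod_pos fun k _ => hc0 k) (hc c0)
  have hck : ∀ k, 0 < dg e (cls c k) := by
    intro k
    rcases Nat.eq_zero_or_pos (dg e (cls c k)) with h | h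
    · rw [Finset.prod_eq_zero (Finset.mem_univ k) h] at hpos
      exact absurd hpos (lt_irrefl _)
    · exact h
  refine ⟨c, hck, ?_⟩
  intro i j hij x hx
  have hxi : c x = i := by
    simpa [cls] using hx
  have hci : cls (Function.update c x j) i = (cls c i).erase x := by
    ext v
    simp only [cls, Finset.mem_filter, Finset.mem_univ, true_and, Finset.mem_erase]
    by_cases hv : v = x
    · subst hv
      rw [Function.update_self]
      constructor
      · intro h
        exact absurd h.symm hij
      · intro h
        exact absurd rfl h.1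
    · rw [Function.update_of_ne hv]
      constructor
      · intro h
        exact ⟨hv, h⟩
      · intro h
        exact h.2
  have hcj : cls (Function.update c x j) j = insert x (cls c j) := by
    ext v
    simp only [cls, Finset.mem_filter, Finset.mem_univ, true_and, Finset.mem_insert]
    by_cases hv : v = x
    · subst hv
      rw [Function.update_self]
      constructor
      · intro _
        exact Or.inl rfl
      · intro _
        rfl
    · rw [Function.update_of_ne hv]
      constructor
      · intro h
        exact Or.inr h
      · intro h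
        exact h.resolve_left hv
  have hcr : ∀ k, k ≠ i → k ≠ j → cls (Function.update c x j) k = cls c k := by
    intro k hki hkj
    ext v
    simp only [cls, Finset.mem_filter, Finset.mem_univ, true_and]
    by_cases hv : v = x
    · subst hv
      rw [Function.update_self]
      constructor
      · intro h
        exact absurd h.symm hkj
      · intro h
        exact absurd (h.symm.trans hxi) hki
    · rw [Function.update_of_ne hv]
  have hsplit : ∀ F : Fin r → ℕ, ∏ k, F k = F i * (F j * ∏ k ∈ (univ.erase i).erase j, F k) := by
    intro F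
    have hj : j ∈ (univ : Finset (Fin r)).erase i :=
      Finset.mem_erase.2 ⟨Ne.symm hij, Finset.mem_univ j⟩
    rw [Finset.mul_prod_erase _ F hj, Finset.mul_prod_erase _ F (Finset.mem_univ i)]
  have hmax : ∏ k, dg e (cls (Function.update c x j) k) ≤ ∏ k, dg e (cls c k) :=
    hc (Function.update c x j)
  rw [hsplit (fun k => dg e (cls (Function.update c x j) k)), hsplit (fun k => dg e (cls c k))]
    at hmax
  have hrest : ∏ k ∈ (univ.erase i).erase j, dg e (cls (Function.update c x j) k) =
      ∏ k ∈ (univ.erase i).erase j, dg e (cls c k) := by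
    refine Finset.prod_congr rfl fun k hk => ?_
    rw [Finset.mem_erase, Finset.mem_erase] at hk
    rw [hcr k hk.2.1 hk.1]
  have hRpos : 0 < ∏ k ∈ (univ.erase i).erase j, dg e (cls c k) :=
    Finset.prod_pos fun k _ => hck k
  rw [hrest, hci, hcj, h2 V ι e (cls c j) x] at hmax
  have hdi := h3 V ι e (cls c i) x hx
  generalize (∏ k ∈ (univ.erase i).erase j, dg e (cls c k)) = R at hmax hRpos
  generalize dg e ((cls c i).erase x) = di' at hmax hdi
  generalize dg e (cls c i) = di at hmax hdi ⊢
  generalize dg e (cls c j) = dj at hmax ⊢
  generalize gn e (cls c j) x = g at hmax ⊢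
  generalize pv e (cls c i) x = p at hdi ⊢
  subst hdi
  have h4 : di' * (dj + g) ≤ (di' + p) * dj := by
    have h5 : (di' * (dj + g)) * R ≤ ((di' + p) * dj) * R := by
      calc (di' * (dj + g)) * R = di' * ((dj + g) * R) := by ring
        _ ≤ (di' + p) * (dj * R) := hmax
        _ = ((di' + p) * dj) * R := by ring
    exact Nat.le_of_mul_le_mul_right h5 hRpos
  nlinarith

end Pool.Agent.H41R2.BT
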