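import Pool.Agent.H41R2.BT.Defs

/-!
# POS: a colouring all of whose classes meet an edge
-/

open Finset

namespace Pool.Agent.H41R2.BT

theorem POS : S_POS := by
  intro V ι _ _ _ _ r e hr he
  obtain ⟨i₀⟩ := (inferInstance : Nonempty ι)
  have f : e i₀ ≃ Fin r := (e i₀).equivFinOfCardEq (he i₀)
  let c : V → Fin r := fun v => if h : v ∈ e i₀ then f ⟨v, h⟩ else ⟨0, hr⟩
  have hc : ∀ k : Fin r, c (f.symm k : V) = k := by
    intro k
    have h1 : (f.symm k : V) ∈ e i₀ := (f.symm k).2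
    show (if h : (f.symm k : V) ∈ e i₀ then f ⟨(f.symm k : V), h⟩ else ⟨0, hr⟩) = k
    rw [dif_pos h1]
    exact f.apply_symm_apply k
  refine ⟨c, fun k => ?_⟩
  unfold dg
  rw [Finset.card_pos]
  refine ⟨i₀, ?_⟩
  rw [Finset.mem_filter]
  refine ⟨Finset.mem_univ _, (f.symm k : V), ?_⟩
  rw [Finset.mem_inter]
  refine ⟨(f.symm k).2, ?_⟩
  unfold cls
  rw [Finset.mem_filter]
  exact ⟨Finset.mem_univ _, hc k⟩

end Pool.Agent.H41R2.BT
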