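import Pool.Agent.H41R2.BT.Defs

/-! SG: double counting. -/

open Finset

namespace Pool.Agent.H41R2.BT

theorem SG : S_SG := by
  intro V ι _ _ _ r e S hr
  have h1 : ∑ x, gn e S x = r * (univ.filter fun i => ¬ (e i ∩ S).Nonempty).card := by
    have e1 : ∀ x, gn e S x = ∑ i, if (x ∈ e i ∧ ¬ (e i ∩ S).Nonempty) then 1 else 0 := by
      intro x
      unfold gn
      rw [Finset.card_filter]
    simp only [e1]
    rw [Finset.sum_comm]
    have e2 : ∀ i, (∑ x : V, if (x ∈ e i ∧ ¬ (e i ∩ S).Nonempty) then 1 else 0) =
        if ¬ (e i ∩ S).Nonempty then r else 0 := by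
      intro i
      by_cases h : (e i ∩ S).Nonempty
      · simp [h]
      · have e3 : (∑ x : V, if (x ∈ e i ∧ ¬ (e i ∩ S).Nonempty) then 1 else 0) =
            ∑ x : V, if x ∈ e i then 1 else 0 := by
          apply Finset.sum_congr rfl
          intro x _
          by_cases hx : x ∈ e i
          · rw [if_pos ⟨hx, h⟩, if_pos hx]
          · rw [if_neg (fun h' => hx h'.1), if_neg hx]
        rw [e3, if_pos h, ← Finset.card_filter, ← hr i]
        congr 1
        ext x
        simp
    simp only [e2]
    rw [Finset.card_filter, Finset.mul_sum]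
    apply Finset.sum_congr rfl
    intro i _
    by_cases h : (e i ∩ S).Nonempty
    · simp [h]
    · simp [h]
  have h2 : dg e S + (univ.filter fun i => ¬ (e i ∩ S).Nonempty).card = Fintype.card ι := by
    unfold dg
    rw [Finset.card_filter_add_card_filter_not]
    exact Finset.card_univ
  rw [h1, ← Nat.mul_add, ← h2]
  ring

end Pool.Agent.H41R2.BT
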