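import Pool.Agent.H41R2.BT.Defs

/-! SH: double counting -/

open Finset

namespace Pool.Agent.H41R2.BT

theorem SH : S_SH := by
  intro V ι _ _ _ r e S U he
  have h1 : ∀ x, hh e S U x = ∑ i ∈ univ.filter (fun i => (e i ∩ S).Nonempty ∧
      ¬ (e i ∩ U).Nonempty), (if x ∈ e i then 1 else 0) := by
    intro x
    unfold hh
    rw [card_eq_sum_ones, sum_filter, sum_filter]
    refine sum_congr rfl fun i _ => ?_
    by_cases h2 : x ∈ e i
    · by_cases h3 : (e i ∩ S).Nonempty ∧ ¬ (e i ∩ U).Nonempty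
      · rw [if_pos ⟨h2, h3⟩, if_pos h3, if_pos h2]
      · rw [if_neg (fun h => h3 h.2), if_neg h3]
    · rw [if_neg (fun h => h2 h.1), if_neg h2, ite_self]
  rw [sum_congr rfl fun x _ => h1 x, sum_comm]
  have h2 : ∀ i, ∑ x : V, (if x ∈ e i then 1 else 0) = r := by
    intro i
    rw [sum_ite_mem, univ_inter, sum_const, smul_eq_mul, mul_one, he i]
  rw [sum_congr rfl fun i _ => h2 i, sum_const, smul_eq_mul, mul_comm]
  rfl

end Pool.Agent.H41R2.BT
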