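import Pool.Agent.H41R2.BT.Defs

open Finset

namespace Pool.Agent.H41R2.BT

theorem SP_point {V : Type} [DecidableEq V] (A S : Finset V) (hA : A ⊆ S) :
    (∑ x ∈ S, if A = {x} then 1 else 0) + (if 2 ≤ A.card then 1 else 0) =
      if A.Nonempty then 1 else 0 := by
  rcases Nat.lt_or_ge A.card 2 with h | h
  · rw [if_neg (not_le.2 h), Nat.add_zero]
    rcases Nat.eq_zero_or_pos A.card with h0 | h0
    · have hA0 : A = ∅ := Finset.card_eq_zero.1 h0
      subst hA0
      rw [if_neg Finset.not_nonempty_empty]
      refine Finset.sum_eq_zero fun x _ => ?_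
      rw [if_neg]
      exact fun h => (Finset.singleton_ne_empty x) h.symm
    · have h1 : A.card = 1 := by omega
      obtain ⟨a, ha⟩ := Finset.card_eq_one.1 h1
      subst ha
      rw [if_pos (Finset.singleton_nonempty a)]
      rw [Finset.sum_eq_single a]
      · rw [if_pos rfl]
      · intro b _ hb
        rw [if_neg]
        intro h
        exact hb (Finset.singleton_injective h).symm
      · intro h
        exact absurd (hA (Finset.mem_singleton_self a)) h
  · rw [if_pos h, if_pos (Finset.card_pos.1 (by omega))]
    rw [Finset.sum_eq_zero]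
    intro x _
    rw [if_neg]
    intro h1
    rw [h1, Finset.card_singleton] at h
    omega

theorem SP : S_SP := by
  intro V ι _ _ _ e S
  unfold pv dbl dg
  simp only [Finset.card_filter]
  rw [Finset.sum_comm, ← Finset.sum_add_distrib]
  refine Finset.sum_congr rfl fun i _ => ?_
  exact SP_point (e i ∩ S) S Finset.inter_subset_right

end Pool.Agent.H41R2.BT
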