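import Pool.Agent.H41R2.BT.VI
import Pool.Agent.H41R2.BT.EXA
import Pool.Agent.H41R2.BT.EXB
import Pool.Agent.H41R2.BT.POS
import Pool.Agent.H41R2.BT.MX
import Pool.Agent.H41R2.BT.SP
import Pool.Agent.H41R2.BT.SG
import Pool.Agent.H41R2.BT.SH
import Pool.Agent.H41R2.BT.LB
import Pool.Agent.H41R2.BT.LE
import Pool.Agent.H41R2.BT.CI
import Pool.Agent.H41R2.BT.L1
import Pool.Agent.H41R2.BT.CORE
import Pool.Agent.H41R2.BT.HV
import Pool.Agent.H41R2.BT.TH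

namespace Pool.Agent.H41R2.BT

theorem all : S_TH :=
  TH (MX POS EXA EXB) (CORE (CI VI SP LB LE) (L1 SP LE) SG SH LE) HV

end Pool.Agent.H41R2.BT
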