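import Pool.Agent.H41R2.BT.Defs

/-! Task TH (helper594). -/

open Finset

namespace Pool.Agent.H41R2.BT

theorem TH (h1 : S_MX) (h2 : S_CORE) (h3 : S_HV) : S_TH := by
  intro r hr
  induction r, hr using Nat.le_induction with
  | base =>
    intro V ι _ _ _ e he
    refine ⟨fun _ => 0, fun k => ?_⟩
    have hk : dg e (cls (fun _ => (0 : Fin 1)) k) = Fintype.card ι := by
      unfold dg
      rw [Finset.filter_true_of_mem, Finset.card_univ]
      intro i _
      have h : (cls (fun _ : V => (0 : Fin 1)) k) = univ := by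
        unfold cls
        rw [Finset.filter_true_of_mem]
        intro v _
        exact Subsingleton.elim _ _
      rw [h, Finset.inter_univ, ← Finset.card_pos, he i]
      exact one_pos
    rw [hk]
    omega
  | succ r hr ih =>
    intro V ι _ _ _ e he
    have e13 : 13 * (2 * (r + 1) - 1) = 13 * (2 * r + 1) := by omega
    rw [e13]
    rcases Nat.eq_zero_or_pos (Fintype.card ι) with h0 | hpos
    · refine ⟨fun _ => 0, fun k => ?_⟩
      rw [h0, Nat.mul_zero]
      exact Nat.zero_le _
    by_cases hx : ∃ x, 9 * (r + 1) * Fintype.card ι ≤ 13 * (2 * r + 1) * deg e x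
    · obtain ⟨x, hx⟩ := hx
      exact h3 V ι r e x hr he hx fun e' he' => ih V ι e' he'
    push Not at hx
    have : Nonempty ι := Fintype.card_pos_iff.1 hpos
    have hm : (0 : ℝ) < Fintype.card ι := by exact_mod_cast hpos
    obtain ⟨t, ht⟩ : ∃ t : ℝ, t = 9 * ((r : ℝ) + 1) * Fintype.card ι / (13 * (2 * r + 1)) :=
      ⟨_, rfl⟩
    have hd : (0 : ℝ) < 13 * (2 * r + 1) := by positivity
    have ht0 : 0 < t := by rw [ht]; positivity
    have ht' : 13 * (2 * (r : ℝ) + 1) * t = 9 * (r + 1) * Fintype.card ι := by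
      rw [ht]
      field_simp
    obtain ⟨c, hc1, hc2⟩ := h1 V ι (r + 1) e (by omega) he
    refine ⟨c, fun k => ?_⟩
    have key := h2 V ι (r + 1) e c t (by omega) ht0 he (by
      push_cast
      linear_combination -ht') (by
      intro x
      have hx1 : ((13 * (2 * r + 1) * deg e x : ℕ) : ℝ) < ((9 * (r + 1) * Fintype.card ι : ℕ) : ℝ) := by
        exact_mod_cast hx x
      push_cast at hx1
      rw [← ht'] at hx1
      exact (lt_of_mul_lt_mul_left hx1 hd.le).le) hc1 hc2 k
    have h5 : ((9 * (r + 1) * Fintype.card ι : ℕ) : ℝ) ≤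
        ((13 * (2 * r + 1) * dg e (cls c k) : ℕ) : ℝ) := by
      push_cast
      rw [← ht']
      exact mul_le_mul_of_nonneg_left key hd.le
    exact_mod_cast h5

end Pool.Agent.H41R2.BT
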