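import Pool.Agent.H41R2.BT.Defs

/-!
# Judicious partitions: the inequality for one vertex
-/

namespace Pool.Agent.H41R2.BT

theorem VI : S_VI := by
  intro t D d b g h h' l p ht hD hDt hd0 hd hb0 hb hg hh hhh hl hlp hpD hgh hgl h1 h2
  have hp : 0 ≤ p := hl.trans hlp
  have hgt : g ≤ t := by linarith
  have hi : g * (D - p) ≤ t * p := by
    have e : p * d ≤ p * t := mul_le_mul_of_nonneg_left hd hp
    nlinarith
  have hii : h * (D - p) ≤ 3 * (t * p) := by
    have e : p * b ≤ p * (3 * t) := mul_le_mul_of_nonneg_left hb hp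
    have e2 : h * (D - p) ≤ h' * (D - p) := mul_le_mul_of_nonneg_right hhh (by linarith)
    nlinarith
  have htp : 0 ≤ t * p := mul_nonneg ht.le hp
  have hpD3 : p * D ≤ 3 * (t * p) := by
    have e : p * D ≤ p * (3 * t) := mul_le_mul_of_nonneg_left hDt hp
    linarith
  rcases le_or_gt D (2 * p) with c1 | c1
  · have e1 : 9 * g + h + l ≤ 9 * t := by linarith
    calc (9 * g + h + l) * D ≤ 9 * t * D := mul_le_mul_of_nonneg_right e1 hD.le
      _ ≤ 9 * t * (2 * p) := mul_le_mul_of_nonneg_left c1 (by linarith)
      _ = 18 * t * p := by ring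
  · rcases le_or_gt D (3 * p) with c2 | c2
    · have hDp : 0 < D - p := by linarith
      refine le_of_mul_le_mul_right ?_ hDp
      have e1 : (9 * g + h + l) * D * (D - p) ≤ (7 * g + 2 * t) * D * (D - p) := by
        apply mul_le_mul_of_nonneg_right _ hDp.le
        apply mul_le_mul_of_nonneg_right _ hD.le
        linarith
      have e2 : 7 * D * (g * (D - p)) ≤ 7 * D * (t * p) := mul_le_mul_of_nonneg_left hi (by linarith)
      have e3 : t * ((2 * D - 9 * p) * (D - 2 * p)) ≤ 0 := by
        apply mul_nonpos_of_nonneg_of_nonpos ht.le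
        exact mul_nonpos_of_nonpos_of_nonneg (by linarith) (by linarith)
      have e4 : (7 * g + 2 * t) * D * (D - p) = 7 * D * (g * (D - p)) + 2 * t * D * (D - p) := by ring
      have e5 : t * ((2 * D - 9 * p) * (D - 2 * p)) =
          7 * D * (t * p) + 2 * t * D * (D - p) - 18 * t * p * (D - p) := by ring
      linarith
    · rcases le_or_gt D (5 * p) with c3 | c3
      · have hDp : 0 < D - p := by linarith
        refine le_of_mul_le_mul_right ?_ hDp
        have e1 : (9 * g + h + l) * D * (D - p) ≤ (8 * g + t + p) * D * (D - p) := by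
          apply mul_le_mul_of_nonneg_right _ hDp.le
          apply mul_le_mul_of_nonneg_right _ hD.le
          linarith
        have e2 : 8 * D * (g * (D - p)) ≤ 8 * D * (t * p) := mul_le_mul_of_nonneg_left hi (by linarith)
        have e3 : t * ((D - 3 * p) * (D - 5 * p)) ≤ 0 := by
          apply mul_nonpos_of_nonneg_of_nonpos ht.le
          exact mul_nonpos_of_nonneg_of_nonpos (by linarith) (by linarith)
        have e6 : p * D * (D - p) ≤ 3 * (t * p) * (D - p) := mul_le_mul_of_nonneg_right hpD3 hDp.le
        have e4 : (8 * g + t + p) * D * (D - p) =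
            8 * D * (g * (D - p)) + t * D * (D - p) + p * D * (D - p) := by ring
        have e5 : t * ((D - 3 * p) * (D - 5 * p)) =
            8 * D * (t * p) + t * D * (D - p) + 3 * (t * p) * (D - p) - 18 * t * p * (D - p) := by ring
        linarith
      · have e1 : (9 * g + h) * (4 / 5 * D) ≤ (9 * g + h) * (D - p) :=
          mul_le_mul_of_nonneg_left (by linarith) (by linarith)
        have e2 : (9 * g + h) * (D - p) ≤ 12 * (t * p) := by
          have : (9 * g + h) * (D - p) = 9 * (g * (D - p)) + h * (D - p) := by ring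
          linarith
        have e3 : l * D ≤ p * D := mul_le_mul_of_nonneg_right hlp hD.le
        have e4 : (9 * g + h + l) * D = 5 / 4 * ((9 * g + h) * (4 / 5 * D)) + l * D := by ring
        rw [e4]
        linarith

end Pool.Agent.H41R2.BT
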